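import Pool.Agent.Run7.h768.CS.AcC

set_option autoImplicit false

/-! # The motivic monodromy conjecture for hypersurfaces: quadratic polynomials plus cubes of variables

Let `k` be a subfield of `ℂ`. Every polynomial `f ∈ k[x_1, ..., x_n]` is stably equivalent to a polynomial `F` of
the form `q + ∑_{i ∈ T} z_i ^ 3`, where `q` is a polynomial of degree at most two and `T` is a set of variables: for
some `κ` there is a polynomial automorphism over `k` in `n + 2 κ` variables which maps
`f(x) + t_1 w_1 + ... + t_κ w_κ` to `F` (`StabEq`, `QC`).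

(a) Weak form: the conjecture Q1 for `F` and `F + t w` (again of this form) implies the one for `f`, if the
integers `a` in the pairs `(a, b)` may have any sign.

(b) Refined form: `(1 - 𝕃⁻¹ T) Z_f^mot(T)` is in the ring generated by `T` and the `1 / (1 - 𝕃 ^ a T ^ b)` with
`a / b` a root of the reduced Bernstein-Sato polynomial `b_f(s) / (s + 1)`. It is again enough to know it for the
polynomials `q + ∑ z_i ^ 3`. It implies Q1 in the exact form, with the pairs `(a, b)` for which `a / b` is a root of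
`b_f`: the roots are negative (Kashiwara), so `a < 0`, and the `exp(2 π i a / b)` are monodromy eigenvalues at
points of `X_0` (Malgrange, Kashiwara).

The zeta function is the one of Q1: the jets with `f(φ) = t ^ d mod t ^ (d + 1)`. In contrast to the jets with
`ord f(φ) = d`, the zeta function of `f + t w` does not determine the one of `f` in an obvious way; but the ones of
`f + t w` and `f + t w + t' w'` together do, without division by `𝕃 - 1` (part 2).

Construction. The step is `f ↦ f + (t + v(x, w)) (w - u(x))`, `u(0) = v(0) = 0`, which is the image of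
`f + t w` under `w ↦ w - u(x)`, `t ↦ t + v(x, w)`. With `v = c (w + u)` it replaces a term `c u ^ 2` of `f` by
`c w ^ 2 + t w - t u`, and with `v = w ^ 2 + w u + u ^ 2` a term `u ^ 3` by `w ^ 3 + t w - t u`. By
`6 t u ^ 2 = (t + u) ^ 3 + (t - u) ^ 3 - 2 t ^ 3` the products `t u`, `u = ∑ c_j u_j ^ 2`, are treated in the same way. -/

namespace Pool.Agent.Results.MP_432c1b_ag.QuadraticPlusCubes

open MvPolynomial Pool.Agent.W428.MOT Pool.Agent.Run7.h768.CS
open Pool.Agent.Y229.MS (addyz)
open Pool.Agent.W375.MG (zetaG)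
open Pool.Agent.H628R4.TP (IsBFunction)

/-- The motivic zeta function `Z_f^mot(T) = ∑_d [X_{d,1}] 𝕃 ^ (-n d) T ^ d`: the jets
`φ mod t ^ (d + 1)` with `f(φ) = t ^ d mod t ^ (d + 1)`. -/
noncomputable def Zmot {k : Type} [Field k] {n : ℕ} (f : MvPolynomial (Fin n) k) :
    PowerSeries (MK k) := zetaG f Set.univ {1}

/-- The complex number `l` is a monodromy eigenvalue of `f` at some point of `X_0`, by the theorem of Malgrange
and Kashiwara: every polynomial `b` with a functional equation `b(s) f ^ s = P(s) f ^ (s + 1)`, in particular the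
Bernstein-Sato polynomial, has a root `α` with `exp(2 π i α) = l`. -/
def IsEigenvalue {k : Type} [Field k] [Algebra k ℂ] {n : ℕ} (f : MvPolynomial (Fin n) k)
    (l : ℂ) : Prop :=
  ∀ b : Polynomial ℂ, IsBFunction (map (algebraMap k ℂ) f) b →
    ∃ α : ℂ, b.eval α = 0 ∧ Complex.exp (2 * Real.pi * Complex.I * α) = l

/-- Q1 for `f`, for pairs `(a, b)` of integers with `b > 0` (Q1 requires also `a < 0`). -/
def Weak {k : Type} [Field k] [Algebra k ℂ] {n : ℕ} (f : MvPolynomial (Fin n) k) : Prop :=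
  ∃ S : Finset (ℤ × ℤ), (∀ p ∈ S, 0 < p.2 ∧
    IsEigenvalue f (Complex.exp (2 * Real.pi * Complex.I * ((p.1 : ℂ) / p.2)))) ∧
    Zmot f ∈ ratRing k (S : Set (ℤ × ℤ))

/-- Q1 for `f` in the strong form: `a / b` is a root of every polynomial `b` with a functional equation, in
particular of the Bernstein-Sato polynomial. -/
def Strong {k : Type} [Field k] [Algebra k ℂ] {n : ℕ} (f : MvPolynomial (Fin n) k) : Prop :=
  ∃ S : Finset (ℤ × ℤ), (∀ p ∈ S, 0 < p.2 ∧ ∀ b : Polynomial ℂ,
    IsBFunction (map (algebraMap k ℂ) f) b → b.eval ((p.1 : ℂ) / p.2) = 0) ∧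
    Zmot f ∈ ratRing k (S : Set (ℤ × ℤ))

/-- `𝕃` -/
noncomputable def L (k : Type) [Field k] : MK k := ((Lu k : (MK k)ˣ) : MK k)

/-- `𝕃⁻¹` -/
noncomputable def Linv (k : Type) [Field k] : MK k := (((Lu k)⁻¹ : (MK k)ˣ) : MK k)

/-- `D_f(T) = (1 - 𝕃⁻¹ T) Z_f^mot(T)` -/
noncomputable def D {k : Type} [Field k] {n : ℕ} (f : MvPolynomial (Fin n) k) :
    PowerSeries (MK k) :=
  (1 - PowerSeries.C (Linv k) * PowerSeries.X) * Zmot f

/-- `D_f(T) = 𝕃 ^ (-3) ((𝕃 ^ 2 + 𝕃) D_{f + t w}(𝕃 T) - D_{f + t w + t' w'}(𝕃 ^ 2 T))` -/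
def TwoStep {k : Type} [Field k] {n : ℕ} (f : MvPolynomial (Fin n) k) : Prop :=
  D f = PowerSeries.C (Linv k ^ 3) * (PowerSeries.C (L k ^ 2 + L k) *
    PowerSeries.rescale (L k) (D (addyz f)) -
      PowerSeries.rescale (L k ^ 2) (D (addyz (addyz f))))

/-- The refined conjecture: the same for `(1 - 𝕃⁻¹ T) Z_f^mot(T)` and the roots of the reduced Bernstein-Sato
polynomial `b(s) / (s + 1)`. -/
def Refined {k : Type} [Field k] [Algebra k ℂ] {n : ℕ} (f : MvPolynomial (Fin n) k) : Prop :=
  ∃ S : Finset (ℤ × ℤ), (∀ p ∈ S, 0 < p.2 ∧ ∀ c : Polynomial ℂ,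
    IsBFunction (map (algebraMap k ℂ) f) ((Polynomial.X + 1) * c) →
      c.eval ((p.1 : ℂ) / p.2) = 0) ∧
    D f ∈ ratRing k (S : Set (ℤ × ℤ))

/-- `F` is a normal form of `f`: `F = q + ∑_{i ∈ T} z_i ^ 3` with `deg q ≤ 2` (`QC F`), of degree at least one, is
the image of `f(x) + t_1 w_1 + ... + t_κ w_κ` under an automorphism over `k` which fixes the origin
(`StabEq f F κ`), a functional equation of `f` with `(s + 1) c(s)` gives one of `F` with `(s + 1) c(s + κ)`, and the
monodromy eigenvalues of `F` are among those of `f`. -/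
structure NormalForm {k : Type} [Field k] [Algebra k ℂ] {n m : ℕ} (f : MvPolynomial (Fin n) k)
    (F : MvPolynomial (Fin m) k) (κ : ℕ) : Prop where
  dim : m = n + 2 * κ
  cubes : QC F
  degree : F.totalDegree ≠ 0
  stab : StabEq f F κ
  eqn : ∀ c : Polynomial ℂ,
    IsBFunction (map (algebraMap k ℂ) f) ((Polynomial.X + 1) * c) →
      IsBFunction (map (algebraMap k ℂ) F)
        ((Polynomial.X + 1) * c.comp (Polynomial.X + Polynomial.C (κ : ℂ)))
  eig : ∀ l : ℂ, IsEigenvalue F l → IsEigenvalue f l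

/-- **Quadratic polynomials plus cubes of variables suffice.** Let `k` be a subfield of `ℂ` (a field with an
embedding).

First part: every non-constant `f` over `k` has a normal form `F = q + ∑_{i ∈ T} z_i ^ 3`, `deg q ≤ 2`
(`NormalForm`); then `F + t w` (`addyz F`) has this form, too, and the weak conjecture for `F` and for `F + t w`
implies the weak conjecture for `f`, and the same is true for the refined conjecture.

Second part: for every `f`, with `D_g(T) = (1 - 𝕃⁻¹ T) Z_g^mot(T)`,
`D_f(T) = 𝕃 ^ (-3) ((𝕃 ^ 2 + 𝕃) D_{f + t w}(𝕃 T) - D_{f + t w + t' w'}(𝕃 ^ 2 T))`.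

Third part: the refined conjecture for `f` implies the strong form of Q1 for `f`, and the strong form implies
the weak form.

Fourth part: the weak conjecture holds for all non-constant polynomials over `k`, in any number of variables, if
and only if it holds for those of the form `q + ∑_{i ∈ T} z_i ^ 3`, `deg q ≤ 2`; and the same is true for the
refined conjecture. -/
theorem result (k : Type) [Field k] [Algebra k ℂ] :
    (∀ {n : ℕ} (f : MvPolynomial (Fin n) k), f.totalDegree ≠ 0 →
      ∃ (κ m : ℕ) (F : MvPolynomial (Fin m) k), NormalForm f F κ ∧ QC (addyz F) ∧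
        (Weak F → Weak (addyz F) → Weak f) ∧ (Refined F → Refined (addyz F) → Refined f)) ∧
    (∀ {n : ℕ} (f : MvPolynomial (Fin n) k), TwoStep f) ∧
    (∀ {n : ℕ} (f : MvPolynomial (Fin n) k), f.totalDegree ≠ 0 →
      (Refined f → Strong f) ∧ (Strong f → Weak f)) ∧
    ((∀ (n : ℕ) (f : MvPolynomial (Fin n) k), f.totalDegree ≠ 0 → Weak f) ↔
      ∀ (n : ℕ) (f : MvPolynomial (Fin n) k), QC f → f.totalDegree ≠ 0 → Weak f) ∧
    ((∀ (n : ℕ) (f : MvPolynomial (Fin n) k), f.totalDegree ≠ 0 → Refined f) ↔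
      ∀ (n : ℕ) (f : MvPolynomial (Fin n) k), QC f → f.totalDegree ≠ 0 → Refined f) := by
  have hk : CharZero k := RingHom.charZero (algebraMap k ℂ)
  refine ⟨fun f hf => ?_, fun f => ?_, fun f hf => ⟨fun h => ?_, ?_⟩,
    ⟨fun h n f _ => h n f, fun h n f hf => ?_⟩, fun h n f _ => h n f, fun h n f hf => ?_⟩
  · obtain ⟨κ, m, F, hm, hF, hs, he, hr⟩ := exists_qck f
    exact ⟨κ, m, F, ⟨hm, hF, hr.deg hf, hs, fun c hc => (hr.b hf _ hc).2 c rfl,
      fun l hl => gEig_of hf hr l hl⟩, hF.addyz,
      fun h1 h2 => gweak_of hm hf he hr h1 h2, fun h1 h2 => gref_of hm hf he hr h1 h2⟩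
  · have h1 := elimG f Pool.Agent.W375.MG.good_one
    rw [PowerSeries.rescale_rescale] at h1
    unfold TwoStep D
    rw [map_add, map_pow PowerSeries.C (L k), sq, sq]
    exact h1
  · exact gref_strong hf h
  · rintro ⟨S, h1, h2⟩
    exact ⟨S, fun p hp => ⟨(h1 p hp).1, fun b hb => ⟨_, (h1 p hp).2 b hb, rfl⟩⟩, h2⟩
  · obtain ⟨κ, m, F, hm, hF, hs, he, hr⟩ := exists_qck f
    exact gweak_of hm hf he hr (h _ F hF (hr.deg hf)) (h _ _ hF.addyz (addyz_deg F))
  · obtain ⟨κ, m, F, hm, hF, hs, he, hr⟩ := exists_qck f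
    exact gref_of hm hf he hr (h _ F hF (hr.deg hf)) (h _ _ hF.addyz (addyz_deg F))

end Pool.Agent.Results.MP_432c1b_ag.QuadraticPlusCubes
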